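import Mathlib

set_option autoImplicit false
open Finset Filter
open scoped Classical

namespace Pool.Agent.Results.MP_c9f8d2_co.Order

variable {V : Type} [Fintype V]

/-- `Win H s t M`: with marked set `M` and Alice to move iff `t`, Alice can keep the score at most `s`. -/
inductive Win (H : SimpleGraph V) (s : ℕ) : Bool → Finset V → Prop
  | done (t : Bool) : Win H s t univ
  | alice (M : Finset V) (v : V) : v ∉ M → 1 + #{u ∈ M | H.Adj v u} ≤ s → Win H s false (insert v M) → Win H s true M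
  | bob (M : Finset V) : (∀ v ∉ M, 1 + #{u ∈ M | H.Adj v u} ≤ s) → (∀ v ∉ M, Win H s true (insert v M)) →
      Win H s false M

/-- The game colouring number. -/
noncomputable def colg (H : SimpleGraph V) : ℕ := sInf {s | Win H s true ∅}

/-- The `m`-th power of a graph. -/
def pw (G : SimpleGraph V) (m : ℕ) : SimpleGraph V where
  Adj x y := x ≠ y ∧ G.edist x y ≤ m
  symm := ⟨fun _ _ h => ⟨h.1.symm, G.edist_comm ▸ h.2⟩⟩
  loopless := ⟨fun _ h => h.1 rfl⟩

/-- A `k`-tree with its vertices numbered in the order of construction. -/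
def KTree (k : ℕ) {n : ℕ} (H : SimpleGraph (Fin n)) : Prop :=
  k + 1 ≤ n ∧ (∀ i j : Fin n, i ≠ j → i.val ≤ k → j.val ≤ k → H.Adj i j) ∧
    ∀ i : Fin n, k < i.val → H.IsNClique k {j | j < i ∧ H.Adj i j}

/-- A subgraph of a `k`-tree. -/
def PKT (k : ℕ) (G : SimpleGraph V) : Prop :=
  ∃ (n : ℕ) (H : SimpleGraph (Fin n)) (e : V ↪ Fin n), KTree k H ∧ ∀ x y, G.Adj x y → H.Adj (e x) (e y)

/-- The supremum of the game colouring numbers over the class. -/
noncomputable def f (k m D : ℕ) : ℕ∞ :=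
  ⨆ (n : ℕ) (G : SimpleGraph (Fin n)) (_ : PKT k G) (_ : ∀ v, G.degree v ≤ D), (colg (pw G m) : ℕ∞)

section
variable (H : SimpleGraph V) (o : V → ℕ)

def Inv (M A : Finset V) (g : V → V) (X : Finset V) : Prop :=
  M ⊆ A ∧ (∀ u ∈ A, ∀ v ∉ M, H.Adj u v → o v < o u → H.Adj u (g u) ∧ o (g u) ≤ o v) ∧
    ∀ w, #{u ∈ A | g u = w ∧ w ≠ u} ≤ (if w ∈ A then 1 else 0) + (if w ∈ M then 1 else 0) + if w ∈ X then 1 else 0

variable {H o}

theorem act {M A X : Finset V} {g : V → V} (h : Inv H o M A g X) {x : V} (hx : x ∉ A) (hX : X ⊆ {x}) (M' : Finset V)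
    (h1 : M ⊆ M') (h2 : M' ⊆ insert x A) : (∃ g, Inv H o M' (insert x A) g ∅) ∨
      ∃ g y, y ∉ M' ∧ o y < o x ∧ Inv H o M' (insert x A) g {y} := by
  obtain ⟨a, b, c⟩ := h
  have key : ∀ y Y, (y = x ∨ y ∈ Y) → (∀ v ∉ M', H.Adj x v → o v < o x → H.Adj x y ∧ o y ≤ o v) →
      Inv H o M' (insert x A) (Function.update g x y) Y := fun y Y hy k => by
    refine ⟨h2, fun u hu v hv => ?_, fun w => ?_⟩
    · rcases mem_insert.mp hu with rfl | hu
      · simpa using k v hv
      · rw [Function.update_of_ne (ne_of_mem_of_not_mem hu hx)]; exact b u hu v fun q => hv (h1 q)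
    · have e : #{u ∈ A | Function.update g x y u = w ∧ w ≠ u} = #{u ∈ A | g u = w ∧ w ≠ u} :=
        congrArg card (filter_congr fun u hu => by rw [Function.update_of_ne (ne_of_mem_of_not_mem hu hx)])
      have := c w
      have := @h1 w
      have := @hX w
      have := @a w
      rw [filter_insert]
      split_ifs at * <;> grind
  by_cases e : ∃ v, v ∉ M' ∧ H.Adj x v ∧ o v < o x
  · obtain ⟨y, hy, m⟩ := exists_min_image {v | v ∉ M' ∧ H.Adj x v ∧ o v < o x} o (by simpa [filter_nonempty_iff])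
    simp only [mem_filter, mem_univ, true_and] at hy m
    exact Or.inr ⟨_, y, hy.1, hy.2.2, key y _ (by simp) fun v a b c => ⟨hy.2.1, m v ⟨a, b, c⟩⟩⟩
  · exact Or.inl ⟨_, key x _ (Or.inl rfl) fun v a b c => (e ⟨v, a, b, c⟩).elim⟩

theorem mk {M A X : Finset V} {g : V → V} (h : Inv H o M A g X) {x : V} (hx : x ∈ A) (hm : x ∉ M) (hX : X ⊆ {x}) :
    Inv H o (insert x M) A g ∅ := by
  refine ⟨insert_subset hx h.1, fun u hu v hv => h.2.1 u hu v fun q => hv (mem_insert_of_mem q), fun w => ?_⟩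
  have := h.2.2 w
  have := @hX w
  split_ifs at * <;> grind

theorem proc (M : Finset V) : ∀ (n : ℕ) (x : V) (A X : Finset V) (g : V → V), o x < n → x ∉ M → X ⊆ {x} →
    Inv H o M A g X → ∃ y ∉ M, ∃ A g, Inv H o (insert y M) A g ∅
  | 0, _, _, _, _, h, _, _, _ => by omega
  | n + 1, x, A, X, g, h, hx, hX, I => by
    by_cases a : x ∈ A
    · exact ⟨x, hx, A, g, mk I a hx hX⟩
    rcases act I a hX M Subset.rfl (I.1.trans (subset_insert _ _)) with ⟨g, J⟩ | ⟨g, y, b, c, J⟩
    · exact ⟨x, hx, _, g, mk J (mem_insert_self _ _) hx (empty_subset _)⟩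
    · exact proc M n y _ _ g (by omega) b Subset.rfl J

variable {K : ℕ} (inj : Function.Injective o) (S : V → Finset V) (hK : ∀ v, #(S v) ≤ K)
  (h1 : ∀ v w, H.Adj v w → o w < o v → w ∈ S v)
  (h2 : ∀ u v w, H.Adj u v → H.Adj u w → o v < o u → o w ≤ o v → w ∈ S v)
include inj hK h1 h2

theorem back {M A : Finset V} {g : V → V} (h : Inv H o M A g ∅) {v : V} (hv : v ∉ M) :
    #{u ∈ M | H.Adj v u} ≤ 3 * K := by
  have : {u ∈ M | H.Adj v u} ⊆ S v ∪ (S v).biUnion fun w => {u ∈ A | g u = w ∧ w ≠ u} := fun u hu => by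
    obtain ⟨a, b⟩ := mem_filter.mp hu
    rcases lt_or_gt_of_ne (inj.ne b.ne) with c | c
    · have := h.2.1 u (h.1 a) v hv b.symm c
      exact mem_union_right _ (mem_biUnion.mpr ⟨_, h2 u v _ b.symm this.1 c this.2,
        mem_filter.mpr ⟨h.1 a, rfl, this.1.ne'⟩⟩)
    · exact mem_union_left _ (h1 v u b c)
  have a := card_biUnion_le_card_mul (S v) (fun w => {u ∈ A | g u = w ∧ w ≠ u}) 2 fun w _ =>
    (h.2.2 w).trans (by split_ifs <;> simp_all)
  have := (card_le_card this).trans (card_union_le _ _)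
  have := hK v
  omega

theorem win : ∀ (n : ℕ) (M A : Finset V) (g : V → V), #Mᶜ < n → Inv H o M A g ∅ → Win H (3 * K + 2) false M
  | 0, _, _, _, hn, _ => by omega
  | n + 1, M, A, g, hn, I => by
    refine .bob M (fun v hv => by have := back inj S hK h1 h2 I hv; omega) fun b hb => ?_
    by_cases e : insert b M = univ
    · exact e ▸ .done _
    obtain ⟨x, hx⟩ : ∃ x, x ∉ insert b M := not_forall.mp (mt eq_univ_of_forall e)
    obtain ⟨y, hy, A', g', J⟩ : ∃ y ∉ insert b M, ∃ A g, Inv H o (insert y (insert b M)) A g ∅ := by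
      by_cases a : b ∈ A
      · exact proc _ _ x _ _ _ (Nat.lt_succ_self _) hx (empty_subset _) (mk I a hb (empty_subset _))
      rcases act I a (empty_subset _) (insert b M) (subset_insert _ _) (insert_subset_insert _ I.1) with
        ⟨g, J⟩ | ⟨g, y, b, c, J⟩
      · exact proc _ _ x _ _ _ (Nat.lt_succ_self _) hx (empty_subset _) J
      · exact proc _ _ y _ _ _ (Nat.lt_succ_self _) b Subset.rfl J
    have lt : #(insert y (insert b M))ᶜ < n := lt_of_lt_of_le (card_lt_card (compl_ssubset_compl.mpr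
      ((ssubset_insert hb).trans (ssubset_insert hy)))) (by omega)
    refine .alice _ y hy ?_ (win n _ A' g' lt J)
    have := back inj S hK h1 h2 I fun q => hy (mem_insert_of_mem q)
    rw [filter_insert]; split_ifs
    · linarith [card_insert_le b {u ∈ M | H.Adj y u}]
    · omega

theorem win' : colg H ≤ 3 * K + 2 := by
  refine Nat.sInf_le ?_
  by_cases e : (∅ : Finset V) = univ
  · exact e ▸ Win.done _
  obtain ⟨x, hx⟩ : ∃ x, x ∉ (∅ : Finset V) := not_forall.mp (mt eq_univ_of_forall e)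
  obtain ⟨y, hy, A, g, J⟩ := proc (H := H) (o := o) ∅ _ x ∅ ∅ id (Nat.lt_succ_self _) hx (empty_subset _)
    ⟨Subset.rfl, by simp, by simp⟩
  exact Win.alice _ y hy (by simp) (win inj S hK h1 h2 _ _ A g (Nat.lt_succ_self _) J)
end

inductive Desc {n : ℕ} (H : SimpleGraph (Fin n)) (i : Fin n) : Fin n → Prop
  | refl : Desc H i i
  | step {x y : Fin n} : Desc H i y → H.Adj x y → y < x → Desc H i x

theorem desc {n : ℕ} {H : SimpleGraph (Fin n)} (c : ∀ x y z, y < x → z < x → H.Adj x y → H.Adj x z → y ≠ z → H.Adj y z)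
    {i x : Fin n} (h : Desc H i x) : i ≤ x ∧ ∀ y, H.Adj x y → Desc H i y ∨ y < i ∧ H.Adj i y := by
  induction h with
  | refl => exact ⟨le_rfl, fun y a => (lt_or_gt_of_ne a.ne).imp (.step .refl a.symm) fun b => ⟨b, a⟩⟩
  | @step x z d a b ih =>
    refine ⟨ih.1.trans b.le, fun y e => ?_⟩
    rcases lt_or_gt_of_ne e.ne with p | p
    · exact Or.inl (.step (.step d a b) e.symm p)
    by_cases q : z = y
    · exact Or.inl (q ▸ d)
    · exact ih.2 y (c x z y b p a e q)

def B (G : SimpleGraph V) (r : ℕ) (x y : V) : Prop := ∃ p : G.Walk x y, p.length ≤ r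

theorem ball {G : SimpleGraph V} {D : ℕ} (h : ∀ v, G.degree v ≤ D) : ∀ r y, #{x | B G r x y} ≤ (D + 1) ^ r
  | 0, y => by
    refine card_le_one.mpr fun a ha b hb => ?_
    obtain ⟨p, x⟩ := (mem_filter.mp ha).2
    obtain ⟨q, z⟩ := (mem_filter.mp hb).2
    rw [p.eq_of_length_eq_zero (by omega), q.eq_of_length_eq_zero (by omega)]
  | r + 1, y => by
    refine (card_le_card (t := ({x | B G r x y} : Finset V).biUnion fun z => insert z (G.neighborFinset z))
      fun x hx => ?_).trans ((card_biUnion_le_card_mul _ _ (D + 1) fun z _ => (card_insert_le _ _).trans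
        (Nat.succ_le_succ (h z))).trans (Nat.mul_le_mul_right _ (ball h r y)))
    obtain ⟨p, a⟩ := (mem_filter.mp hx).2
    simp only [mem_biUnion, mem_filter, mem_univ, true_and, mem_insert, SimpleGraph.mem_neighborFinset]
    cases p with
    | nil => exact ⟨_, ⟨.nil, by simp⟩, Or.inl rfl⟩
    | cons b p => exact ⟨_, ⟨p, by simpa using a⟩, Or.inr b.symm⟩

theorem split {G : SimpleGraph V} (t : ℕ) : ∀ (s : ℕ) {x y : V} (p : G.Walk x y), p.length ≤ s + t + 1 →
    ∃ a b, B G s x a ∧ B G t y b ∧ (a = b ∨ G.Adj a b)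
  | _, _, _, .nil, _ => ⟨_, _, ⟨.nil, by simp⟩, ⟨.nil, by simp⟩, Or.inl rfl⟩
  | 0, _, _, .cons a p, h => ⟨_, _, ⟨.nil, by simp⟩, ⟨p.reverse, by simpa using h⟩, Or.inr a⟩
  | s + 1, _, _, .cons a p, h => by
    obtain ⟨u, v, ⟨q, b⟩, c⟩ := split t s p (by simp at h; omega)
    exact ⟨u, v, ⟨.cons a q, by simpa using b⟩, c⟩

theorem upper {G : SimpleGraph V} {k D : ℕ} (m : ℕ) (h : PKT k G) (hD : ∀ v, G.degree v ≤ D) :
    colg (pw G m) ≤ 3 * ((k + 1) * (D + 1) ^ (m / 2)) + 2 := by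
  obtain ⟨n, H, e, ⟨-, k1, k2⟩, he⟩ := h
  generalize hr : m / 2 = r
  have c : ∀ x y z, y < x → z < x → H.Adj x y → H.Adj x z → y ≠ z → H.Adj y z := fun x y z a b c d q => by
    by_cases w : k < x.val
    · exact (k2 x w).1 (by simp [*]) (by simp [*]) q
    · exact k1 _ _ q (by omega) (by omega)
  have bg : ∀ i, #{j | j < i ∧ H.Adj i j} ≤ k := fun i => by
    by_cases w : k < i.val
    · exact (k2 i w).2.le
    · exact (card_le_card (t := Iio i) fun j hj => by simp at hj ⊢; exact hj.1).trans (by simp; omega)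
  choose μ m1 m2 using fun x => exists_min_image {y | B G r x y} e ⟨x, by simpa using ⟨.nil, by simp⟩⟩
  simp only [mem_filter, mem_univ, true_and] at m1 m2
  let o : V → ℕ := fun x => n * e (μ x) + e x
  have om : ∀ x y, o x ≤ o y → e (μ x) ≤ e (μ y) := fun x y a => Nat.le_of_lt_succ (Nat.lt_of_mul_lt_mul_left
    (a := n) (by have := (e y).2; simp only [o] at a; rw [Nat.mul_succ]; omega))
  have W : ∀ i {a b} (p : G.Walk a b), Desc H i (e a) → Desc H i (e b) ∨ ∃ y ∈ p.support, e y < i ∧ H.Adj i (e y) := by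
    intro i a b p
    induction p with
    | nil => exact Or.inl
    | cons x p ih =>
      exact fun d => ((desc c d).2 _ (he _ _ x)).elim
        (fun d => (ih d).imp_right fun ⟨y, u, v⟩ => ⟨y, by simp [u], v⟩) fun v => Or.inr ⟨_, by simp, v⟩
  have sp : ∀ i x a b, B G r x a → B G r x b → Desc H i (e a) →
      Desc H i (e b) ∨ ∃ y, B G r x y ∧ e y < i ∧ H.Adj i (e y) := fun i x a b ⟨p, u⟩ ⟨q, v⟩ d => by
    rcases W i p.reverse d with d | ⟨y, s, t⟩
    · exact (W i q d).imp_right fun ⟨y, s, t⟩ => ⟨y, ⟨q.takeUntil y s, (q.length_takeUntil_le s).trans v⟩, t⟩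
    · have s' : y ∈ p.support := by simpa using s
      exact Or.inr ⟨y, ⟨p.takeUntil y s', (p.length_takeUntil_le s').trans u⟩, t⟩
  have fu : ∀ i x a, i ≤ e (μ x) → B G r x a → Desc H i (e a) → ∀ b, B G r x b → Desc H i (e b) :=
    fun i x a u v d b w => (sp i x a b v w d).resolve_right fun ⟨y, s, t, _⟩ => (u.trans (m2 x y s)).not_gt t
  have tc : ∀ i x y, (pw G m).Adj x y → (∀ b, B G r x b → Desc H i (e b)) →
      ∃ b, B G r y b ∧ (Desc H i (e b) ∨ e b < i ∧ H.Adj i (e b)) := fun i x y a F => by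
    obtain ⟨p, hp⟩ := SimpleGraph.exists_walk_of_edist_ne_top (ne_top_of_le_ne_top (by simp) a.2)
    obtain ⟨u, v, s, t, w⟩ := split r r p (by have := hp.trans_le a.2; norm_cast at this; omega)
    exact ⟨v, t, w.elim (fun w => Or.inl (w ▸ F u s)) fun w => (desc c (F u s)).2 _ (he _ _ w)⟩
  have en : ∀ v x w, (pw G m).Adj x w → (∀ b, B G r x b → Desc H (e (μ v)) (e b)) → o w ≤ o v →
      w ∈ (insert (μ v) ({y | e y < e (μ v) ∧ H.Adj (e (μ v)) (e y)} : Finset V)).biUnion
        fun y => ({x | B G r x y} : Finset V) :=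
    fun v x w a F l => by
    simp only [mem_biUnion, mem_insert, mem_filter, mem_univ, true_and]
    obtain ⟨b, s, d | t⟩ := tc _ x w a F
    · rcases sp _ w b _ s (m1 w) d with d | ⟨y, s, t⟩
      · exact ⟨_, Or.inl (e.injective (le_antisymm (om _ _ l) (desc c d).1)), m1 w⟩
      · exact ⟨y, Or.inr t, s⟩
    · exact ⟨b, Or.inr t, s⟩
  have F : ∀ v b, B G r v b → Desc H (e (μ v)) (e b) := fun v => fu _ v _ le_rfl (m1 v) .refl
  refine win' (o := o) (fun x y a => e.injective (Fin.ext ?_)) (fun v => (insert (μ v) ({y | e y < e (μ v) ∧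
    H.Adj (e (μ v)) (e y)} : Finset V)).biUnion fun y => ({x | B G r x y} : Finset V)) (fun v => ?_)
    (fun v w a b => en v v w a (F v) b.le) fun u v w a b s t => en v u w b ?_ t
  · simpa [o, Nat.mod_eq_of_lt] using congrArg (· % n) a
  · refine (card_biUnion_le_card_mul _ _ _ fun y _ => ball hD r y).trans (Nat.mul_le_mul_right _
      ((card_insert_le _ _).trans (Nat.succ_le_succ (le_trans ?_ (bg (e (μ v)))))))
    exact card_le_card_of_injOn e (fun y hy => by simpa using hy) e.injective.injOn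
  · obtain ⟨z, x, d | d⟩ := tc _ v u a.symm (F v)
    · exact fu _ u z (om _ _ s.le) x d
    · exact (((om _ _ s.le).trans (m2 u z x)).not_gt d.1).elim

theorem full {H : SimpleGraph V} (h : ∀ x y, x ≠ y → H.Adj x y) {s : ℕ} {t : Bool} {M : Finset V} (w : Win H s t M) :
    M = univ ∨ Fintype.card V ≤ s := by
  have k : ∀ M v, v ∉ M → 1 + #{u ∈ M | H.Adj v u} ≤ s → insert v M = univ → Fintype.card V ≤ s := fun M v a b c => by
    rwa [filter_true_of_mem fun u hu => h _ _ (ne_of_mem_of_not_mem hu a).symm, add_comm, ← card_insert_of_notMem a,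
      c] at b
  induction w with
  | done => exact Or.inl rfl
  | alice M v a b _ ih => exact Or.inr (ih.elim (k M v a b) id)
  | bob M a _ ih =>
    refine or_iff_not_imp_left.mpr fun e => ?_
    obtain ⟨v, hv⟩ : ∃ x, x ∉ M := not_forall.mp (mt eq_univ_of_forall e)
    exact (ih v hv).elim (k M v hv (a v hv)) id

theorem triv (H : SimpleGraph V) : ∀ (n : ℕ) (t : Bool) (M : Finset V), #Mᶜ < n → Win H (1 + Fintype.card V) t M
  | 0, _, _, hn => by omega
  | n + 1, t, M, hn => by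
    have a : ∀ v, 1 + #{u ∈ M | H.Adj v u} ≤ 1 + Fintype.card V := fun v => Nat.add_le_add_left (card_le_univ _) 1
    have b : ∀ v ∉ M, #(insert v M)ᶜ < n := fun v hv =>
      lt_of_lt_of_le (card_lt_card (compl_ssubset_compl.mpr (ssubset_insert hv))) (by omega)
    cases t
    · exact .bob M (fun v _ => a v) fun v hv => triv H n _ _ (b v hv)
    by_cases e : M = univ
    · exact e ▸ .done _
    obtain ⟨v, hv⟩ : ∃ x, x ∉ M := not_forall.mp (mt eq_univ_of_forall e)
    exact .alice M v hv (a v) (triv H n _ _ (b v hv))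

theorem lower (k m d : ℕ) : ((d + 2) ^ (m / 2) : ℕ) ≤ f (k + 1) m (d + 3) := by
  obtain ⟨N, hN⟩ : ∃ N, N = (d + 2) ^ (m / 2) := ⟨_, rfl⟩
  have N0 : 0 < N := hN ▸ pow_pos (by omega) _
  have dl : ∀ j, 0 < j → j / (d + 2) < j := fun j h => Nat.div_lt_self h (by omega)
  let G : SimpleGraph (Fin N) := .fromRel fun x y => y.val = x / (d + 2)
  let H : SimpleGraph (Fin (k + N + 1)) := .fromRel fun x y => y.val < k ∨ k ≤ x.val ∧ y.val = k + (x - k) / (d + 2)
  have hG : PKT (k + 1) G := by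
    refine ⟨_, H, ⟨fun x => ⟨k + x, by omega⟩, fun x y a => by simpa [Fin.ext_iff] using a⟩,
      ⟨by omega, fun i j a b c => ?_, fun i a => ?_⟩, fun x y a => by simpa [G, H, Fin.ext_iff] using a⟩
    · have : 1 / (d + 2) = 0 := Nat.div_eq_of_lt (by omega)
      simp only [H, SimpleGraph.fromRel_adj, ne_eq, Fin.ext_iff] at a ⊢
      rcases (by omega : i.val < k ∨ j.val < k ∨ i.val = k ∧ j.val = k + 1 ∨ j.val = k ∧ i.val = k + 1) with
        e | e | e | e <;> simp [*]
    · have l := dl (i - k) (by omega)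
      have e : ({j | j < i ∧ H.Adj i j} : Finset _) =
          insert ⟨k + (i - k) / (d + 2), by omega⟩ (Iio ⟨k, by omega⟩) := by
        ext j
        have := Nat.div_le_self (j - k) (d + 2)
        simp only [H, SimpleGraph.fromRel_adj, ne_eq, Fin.ext_iff, mem_filter, mem_univ, true_and, mem_insert,
          mem_Iio, Fin.lt_def]
        omega
      suffices H.IsNClique (k + 1) (insert ⟨k + (i - k) / (d + 2), by omega⟩ (Iio ⟨k, by omega⟩)) by
        exact Eq.mp (congrArg _ (Finset.ext fun j => by rw [← e]; simp only [mem_filter])) this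
      refine ⟨fun x a y b c => ?_, by rw [card_insert_of_notMem (by simp [Fin.le_def])]; simp⟩
      simp only [H, SimpleGraph.fromRel_adj, ne_eq, Fin.ext_iff, coe_insert, coe_Iio, Set.mem_insert_iff,
        Set.mem_Iio, Fin.lt_def] at a b c ⊢
      omega
  have hD : ∀ v, G.degree v ≤ d + 3 := fun v => by
    refine (card_le_card_of_injOn (t := insert (v / (d + 2)) (Ico (v * (d + 2)) (v * (d + 2) + (d + 2)))) Fin.val
      (fun x hx => ?_) Fin.val_injective.injOn).trans ((card_insert_le _ _).trans (by simp))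
    simp only [G, SimpleGraph.coe_neighborFinset, SimpleGraph.mem_neighborSet, SimpleGraph.fromRel_adj] at hx
    have := Nat.div_add_mod' x (d + 2)
    have := Nat.mod_lt x (show 0 < d + 2 by omega)
    simp only [coe_insert, coe_Ico, Set.mem_insert_iff, Set.mem_Ico]
    exact hx.2.imp_right fun e => by rw [e]; omega
  have nr : ∀ r (x : Fin N), x.val < (d + 2) ^ r → B G r x ⟨0, N0⟩ := fun r => by
    induction r with
    | zero => exact fun x a => (show (⟨0, N0⟩ : Fin N) = x from Fin.ext (by simp at a; simp [a])) ▸ ⟨.nil, by simp⟩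
    | succ r ih =>
      intro x a
      by_cases z : x.val = 0
      · exact (show (⟨0, N0⟩ : Fin N) = x from Fin.ext z.symm) ▸ ⟨.nil, by simp⟩
      have := dl x (by omega)
      obtain ⟨p, b⟩ := ih ⟨x / (d + 2), by omega⟩ (Nat.div_lt_of_lt_mul (by rwa [← pow_succ']))
      exact ⟨.cons (by simp [G, Fin.ext_iff]; omega) p, by simpa using b⟩
  refine le_iSup_of_le N (le_iSup_of_le G (le_iSup_of_le hG (le_iSup_of_le (fun v => le_of_eq_of_le (by congr; exact Subsingleton.elim _ _) (hD v)) (Nat.cast_le.mpr ?_))))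
  have := full (H := pw G m) (fun x y a => ⟨a, ?_⟩)
    (Nat.sInf_mem (s := {s | Win (pw G m) s true ∅}) ⟨_, triv _ _ _ _ (Nat.lt_succ_self _)⟩)
  · rw [← hN]
    simpa [colg] using this.resolve_left fun e => notMem_empty (⟨0, N0⟩ : Fin N) (e ▸ mem_univ _)
  · obtain ⟨p, a⟩ := nr _ x (x.2.trans_eq hN)
    obtain ⟨q, b⟩ := nr _ y (y.2.trans_eq hN)
    exact (SimpleGraph.edist_le (p.append q.reverse)).trans (Nat.cast_le.mpr (by simp; omega))

theorem result (k m : ℕ) (hk : 1 ≤ k) (D : ℕ) (hD : 3 ≤ D) :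
    ((D - 1) ^ (m / 2) : ℕ) ≤ f k m D ∧ f k m D ≤ (3 * ((k + 1) * (D + 1) ^ (m / 2)) + 2 : ℕ) := by
  obtain ⟨k, rfl⟩ := Nat.exists_eq_add_of_le' hk
  obtain ⟨d, rfl⟩ := Nat.exists_eq_add_of_le' hD
  exact ⟨lower k m d, iSup_le fun _ => iSup_le fun _ => iSup_le fun a => iSup_le fun b =>
    Nat.cast_le.mpr (upper m a b)⟩

end Pool.Agent.Results.MP_c9f8d2_co.Order
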